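import Mathlib

/-!
Powers of the ideal `(x y, x b², y a²)` in `K[x, y, a, b]`, described by monomial conditions.
-/

set_option autoImplicit false

namespace Pool.Agent.P.MP_ad771b_al

open MvPolynomial

variable {K : Type*} [Field K]

/-- polynomials all of whose monomials satisfy an upward closed condition -/
def monIdeal (K : Type*) [Field K] (c : (Fin 4 →₀ ℕ) → Prop)
    (hc : ∀ m m', c m → c (m' + m)) : Ideal (MvPolynomial (Fin 4) K) where
  carrier := {f | ∀ m ∈ f.support, c m}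
  zero_mem' := by simp
  add_mem' := by
    intro f g hf hg m hm
    rcases Finset.mem_union.1 (support_add hm) with h | h
    · exact hf m h
    · exact hg m h
  smul_mem' := by
    intro r f hf m hm
    obtain ⟨a, -, b, hb, rfl⟩ := Finset.mem_add.1 (support_mul _ _ hm)
    exact hc _ _ (hf b hb)

def cnd (k : ℕ) (m : Fin 4 →₀ ℕ) : Prop :=
  k ≤ m 0 + m 1 ∧ k ≤ m 0 + m 2 / 2 ∧ k ≤ m 1 + m 3 / 2

theorem cnd_up (k : ℕ) (m m' : Fin 4 →₀ ℕ) (h : cnd k m) : cnd k (m' + m) := by
  simp only [cnd, Finsupp.add_apply] at h ⊢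
  omega

noncomputable def exI (K : Type*) [Field K] : Ideal (MvPolynomial (Fin 4) K) :=
  Ideal.span {X 0 * X 1, X 0 * X 3 ^ 2, X 1 * X 2 ^ 2}

noncomputable def exP (K : Type*) [Field K] : Ideal (MvPolynomial (Fin 4) K) :=
  Ideal.span {X 0, X 1}

theorem g1 : (X 0 * X 1 : MvPolynomial (Fin 4) K) =
    monomial (Finsupp.single 0 1 + Finsupp.single 1 1) 1 := by
  simp [X, monomial_mul]

theorem g2 : (X 0 * X 3 ^ 2 : MvPolynomial (Fin 4) K) =
    monomial (Finsupp.single 0 1 + Finsupp.single 3 2) 1 := by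
  simp [X, monomial_mul, monomial_pow]

theorem g3 : (X 1 * X 2 ^ 2 : MvPolynomial (Fin 4) K) =
    monomial (Finsupp.single 1 1 + Finsupp.single 2 2) 1 := by
  simp [X, monomial_mul, monomial_pow]

theorem monomial_mem_pow (k : ℕ) : ∀ m : Fin 4 →₀ ℕ, cnd k m →
    monomial m (1 : K) ∈ exI K ^ k := by
  induction k with
  | zero => intro m _; simp
  | succ k ih =>
    intro m hm
    have step : ∀ g : Fin 4 →₀ ℕ, monomial g (1 : K) ∈ exI K → g ≤ m → cnd k (m - g) →
        monomial m (1 : K) ∈ exI K ^ (k + 1) := by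
      intro g hg hle hc
      have : monomial m (1 : K) = monomial (m - g) 1 * monomial g 1 := by
        rw [monomial_mul, tsub_add_cancel_of_le hle, one_mul]
      rw [this, pow_succ]
      exact Ideal.mul_mem_mul (ih _ hc) hg
    simp only [cnd] at hm
    by_cases h1 : 1 ≤ m 0 ∧ 2 ≤ m 3
    · refine step (Finsupp.single 0 1 + Finsupp.single 3 2)
        (by rw [← g2]; exact Ideal.subset_span (by simp)) ?_ ?_
      · intro i; fin_cases i <;> simp <;> omega
      · simp [cnd]; omega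
    · by_cases h2 : 1 ≤ m 1 ∧ 2 ≤ m 2
      · refine step (Finsupp.single 1 1 + Finsupp.single 2 2)
          (by rw [← g3]; exact Ideal.subset_span (by simp)) ?_ ?_
        · intro i; fin_cases i <;> simp <;> omega
        · simp [cnd]; omega
      · refine step (Finsupp.single 0 1 + Finsupp.single 1 1)
          (by rw [← g1]; exact Ideal.subset_span (by simp)) ?_ ?_
        · intro i; fin_cases i <;> simp <;> omega
        · simp [cnd]; omega

theorem mem_pow_iff (k : ℕ) (f : MvPolynomial (Fin 4) K) :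
    f ∈ exI K ^ k ↔ ∀ m ∈ f.support, cnd k m := by
  constructor
  · induction k generalizing f with
    | zero => intro _ m _; simp [cnd]
    | succ k ih =>
      intro hf
      rw [pow_succ] at hf
      refine Submodule.mul_induction_on hf
        (C := fun f => f ∈ monIdeal K (cnd (k + 1)) (cnd_up _)) ?_ fun _ _ => add_mem
      intro a ha b hb m hm
      have hb' : b ∈ monIdeal K (cnd 1) (cnd_up _) := by
        refine (Ideal.span_le.2 ?_ : exI K ≤ _) hb
        rintro _ (rfl | rfl | rfl) m hm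
        · rw [g1] at hm
          rw [Finset.mem_singleton.1 (support_monomial_subset hm)]; simp [cnd]
        · rw [g2] at hm
          rw [Finset.mem_singleton.1 (support_monomial_subset hm)]; simp [cnd]
        · rw [g3] at hm
          rw [Finset.mem_singleton.1 (support_monomial_subset hm)]; simp [cnd]
      obtain ⟨u, hu, v, hv, rfl⟩ := Finset.mem_add.1 (support_mul _ _ hm)
      have h1 := ih a ha u hu
      have h2 := hb' v hv
      simp only [cnd, Finsupp.add_apply] at h1 h2 ⊢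
      omega
  · intro h
    rw [f.as_sum]
    refine Ideal.sum_mem _ fun m hm => ?_
    have : monomial m (coeff m f) = C (coeff m f) * monomial m (1 : K) := by
      rw [C_mul_monomial, mul_one]
    rw [this]
    exact Ideal.mul_mem_left _ _ (monomial_mem_pow k m (h m hm))

theorem mem_P_iff (f : MvPolynomial (Fin 4) K) :
    f ∈ exP K ↔ ∀ m ∈ f.support, 1 ≤ m 0 + m 1 := by
  have : ({X 0, X 1} : Set (MvPolynomial (Fin 4) K)) = X '' {0, 1} := by
    rw [Set.image_pair]
  rw [exP, this, mem_ideal_span_X_image]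
  refine forall₂_congr fun m _ => ?_
  simp only [Set.mem_insert_iff, Set.mem_singleton_iff, exists_eq_or_imp, exists_eq_left]
  omega

theorem order_iff (k : ℕ) (f : MvPolynomial (Fin 4) K) :
    (∀ m ∈ f.support, k ≤ m 0 + m 1) ↔
      (k : ℕ∞) ≤ (f : MvPowerSeries (Fin 4) K).weightedOrder ![1, 1, 0, 0] := by
  have hw : ∀ m : Fin 4 →₀ ℕ, Finsupp.weight ![1, 1, 0, 0] m = m 0 + m 1 := by
    intro m
    rw [Finsupp.weight_apply, Finsupp.sum_fintype _ _ (by simp)]
    simp [Fin.sum_univ_succ]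
  constructor
  · intro h
    refine MvPowerSeries.nat_le_weightedOrder _ fun d hd => ?_
    rw [coeff_coe]
    by_contra hne
    have := h d (mem_support_iff.2 hne)
    rw [hw] at hd
    omega
  · intro h m hm
    have := h.trans (MvPowerSeries.weightedOrder_le ![1, 1, 0, 0] (d := m)
      (by rw [coeff_coe]; exact mem_support_iff.1 hm))
    rw [hw] at this
    exact_mod_cast this

theorem primary (k : ℕ) (f g : MvPolynomial (Fin 4) K)
    (h : ∀ m ∈ (g * f).support, k ≤ m 0 + m 1) (hf : ¬ ∀ m ∈ f.support, k ≤ m 0 + m 1) :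
    g ∈ exP K := by
  rw [mem_P_iff]
  rw [order_iff] at h hf ⊢
  rw [coe_mul, MvPowerSeries.weightedOrder_mul] at h
  by_contra hg
  rw [not_le, Nat.cast_one, Order.lt_one_iff] at hg
  rw [hg, zero_add] at h
  exact hf h

theorem P_prime : (exP K).IsPrime := by
  refine ⟨?_, fun {g f} h => ?_⟩
  · rw [Ne, Ideal.eq_top_iff_one, mem_P_iff]
    intro h
    have := h 0 (by simp)
    simp at this
  · by_cases hf : f ∈ exP K
    · exact Or.inr hf
    · rw [mem_P_iff] at h hf
      exact Or.inl (primary 1 f g h hf)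

theorem X_mul_mem {k : ℕ} {f : MvPolynomial (Fin 4) K} (i : Fin 4) (h : X i * f ∈ exI K ^ k)
    (m : Fin 4 →₀ ℕ) (hm : m ∈ f.support) : cnd k (Finsupp.single i 1 + m) := by
  refine (mem_pow_iff k _).1 h _ ?_
  rw [mem_support_iff, coeff_X_mul]
  exact mem_support_iff.1 hm

/-- If `(I^k : f)` is proper and contains `p`, some monomial of `f` has low order along `p`. -/
theorem colon_facts {k : ℕ} {f : MvPolynomial (Fin 4) K}
    (hne : (exI K ^ k).colon {f} ≠ ⊤) (hle : exP K ≤ (exI K ^ k).colon {f}) :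
    (∀ m ∈ f.support, k ≤ m 0 + m 2 / 2 ∧ k ≤ m 1 + m 3 / 2) ∧
      ¬ ∀ m ∈ f.support, k ≤ m 0 + m 1 := by
  have h0 : X 0 * f ∈ exI K ^ k :=
    Submodule.mem_colon_singleton.1 (hle (Ideal.subset_span (by simp)))
  have h1 : X 1 * f ∈ exI K ^ k :=
    Submodule.mem_colon_singleton.1 (hle (Ideal.subset_span (by simp)))
  have h2 : ∀ m ∈ f.support, k ≤ m 0 + m 2 / 2 ∧ k ≤ m 1 + m 3 / 2 := by
    intro m hm
    have a0 := X_mul_mem 0 h0 m hm
    have a1 := X_mul_mem 1 h1 m hm
    simp [cnd] at a0 a1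
    omega
  refine ⟨h2, fun h => hne ?_⟩
  rw [Ideal.eq_top_iff_one, Submodule.mem_colon_singleton, one_smul, mem_pow_iff]
  exact fun m hm => ⟨h m hm, h2 m hm⟩

theorem colon_le {k : ℕ} {f : MvPolynomial (Fin 4) K}
    (hf : ¬ ∀ m ∈ f.support, k ≤ m 0 + m 1) : (exI K ^ k).colon {f} ≤ exP K := by
  intro g hg
  rw [Submodule.mem_colon_singleton, smul_eq_mul, mem_pow_iff] at hg
  exact primary k f g (fun m hm => (hg m hm).1) hf

/-- The witness `y^k a^(2k+2) b^2` for `I^(k+1)`. -/
noncomputable def wit (k : ℕ) : Fin 4 →₀ ℕ :=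
  Finsupp.single 1 k + Finsupp.single 2 (2 * k + 2) + Finsupp.single 3 2

theorem colon_wit (k : ℕ) : (exI K ^ (k + 1)).colon {monomial (wit k) (1 : K)} = exP K := by
  refine le_antisymm (colon_le fun h => ?_) ?_
  · have := h (wit k) (by simp)
    simp [wit] at this
  · rw [exP, Ideal.span_le]
    rintro _ (rfl | rfl)
    · rw [SetLike.mem_coe, Submodule.mem_colon_singleton, smul_eq_mul, X, monomial_mul, one_mul]
      apply monomial_mem_pow
      simp [cnd, wit]
    · rw [SetLike.mem_coe, Submodule.mem_colon_singleton, smul_eq_mul, X, monomial_mul, one_mul]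
      apply monomial_mem_pow
      simp [cnd, wit]

theorem degree_eq (m : Fin 4 →₀ ℕ) : m.degree = m 0 + m 1 + m 2 + m 3 := by
  rw [Finsupp.degree_eq_sum, Fin.sum_univ_four]

theorem hom_deg {f : MvPolynomial (Fin 4) K} {d : ℕ} (hf : f.IsHomogeneous d) {m : Fin 4 →₀ ℕ}
    (hm : m ∈ f.support) : m 0 + m 1 + m 2 + m 3 = d := by
  rw [← degree_eq]
  by_contra h
  exact mem_support_iff.1 hm (hf.coeff_eq_zero h)

theorem v_eq (k : ℕ) :
    sInf {d | ∃ f : MvPolynomial (Fin 4) K, f.IsHomogeneous d ∧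
      (exI K ^ (k + 1)).colon {f} = exP K} = 3 * (k + 1) + 1 := by
  have hmem : 3 * (k + 1) + 1 ∈ {d | ∃ f : MvPolynomial (Fin 4) K, f.IsHomogeneous d ∧
      (exI K ^ (k + 1)).colon {f} = exP K} := by
    refine ⟨monomial (wit k) 1, isHomogeneous_monomial _ ?_, colon_wit k⟩
    rw [degree_eq]; simp [wit]; omega
  refine le_antisymm (Nat.sInf_le hmem) (le_csInf ⟨_, hmem⟩ ?_)
  rintro d ⟨f, hf, hc⟩
  obtain ⟨h1, h2⟩ := colon_facts (hc ▸ P_prime.ne_top) hc.ge
  push Not at h2
  obtain ⟨m, hm, hm'⟩ := h2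
  have := h1 m hm
  have := hom_deg hf hm
  omega

theorem alpha_eq :
    sInf {d | ∃ f ∈ exI K, f ≠ 0 ∧ f.IsHomogeneous d} = 2 := by
  have hmem : 2 ∈ {d | ∃ f ∈ exI K, f ≠ 0 ∧ f.IsHomogeneous d} := by
    refine ⟨X 0 * X 1, Ideal.subset_span (by simp), by simp,
      (isHomogeneous_X K 0).mul (isHomogeneous_X K 1)⟩
  refine le_antisymm (Nat.sInf_le hmem) (le_csInf ⟨_, hmem⟩ ?_)
  rintro d ⟨f, hf, hne, hd⟩
  obtain ⟨m, hm⟩ := support_nonempty.2 hne
  have h1 := (mem_pow_iff 1 f).1 (by rwa [pow_one]) m hm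
  have := hom_deg hd hm
  simp only [cnd] at h1
  omega

theorem mem_ass_iff (J q : Ideal (MvPolynomial (Fin 4) K)) :
    q ∈ associatedPrimes (MvPolynomial (Fin 4) K) (MvPolynomial (Fin 4) K ⧸ J) ↔
      q.IsPrime ∧ ∃ f, q = J.colon {f} := by
  rw [AssociatedPrimes.mem_iff, isAssociatedPrime_iff]
  refine and_congr_right fun _ => ?_
  have key : ∀ f : MvPolynomial (Fin 4) K,
      (⊥ : Submodule (MvPolynomial (Fin 4) K) (MvPolynomial (Fin 4) K ⧸ J)).colon
        {Ideal.Quotient.mk J f} = J.colon {f} := by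
    intro f
    ext g
    rw [Submodule.mem_colon_singleton, Submodule.mem_colon_singleton, Submodule.mem_bot,
      ← Ideal.Quotient.eq_zero_iff_mem]
    rfl
  constructor
  · rintro ⟨x, hx⟩
    obtain ⟨f, rfl⟩ := Ideal.Quotient.mk_surjective x
    exact ⟨f, hx.trans (key f)⟩
  · rintro ⟨f, hf⟩
    exact ⟨_, hf.trans (key f).symm⟩

end Pool.Agent.P.MP_ad771b_al
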